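import Pool.Agent.Y164.SZ.Stm

/-! SZ-ADJ: the Kummer data of an adjusted cocycle (port of `Y31.HG.Adj` to odd `ℓ`). -/

set_option autoImplicit false
set_option linter.all false

open Polynomial

namespace Pool.Agent.Y98.SZ.Adj

open Pool.Agent.Y713.SE Pool.Agent.Y713.SE.Dat
open Pool.Agent.Y164.SZ (Tm S_ADJ)

section
variable {ℓ n : ℕ} {K : Type} [Field K] (D : Dat ℓ n K) {L : Type} [Field L] [Algebra K L]

lemma lam_prod {E : Type} [Field E] {ℓ : ℕ} (D : Dat ℓ n E) (i : Fin n) (s : Finset (Fin n))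
    (V : Fin n → E[X]) (hV : ∀ k, V k ≠ 0) (m : Fin n → ℕ) :
    D.lam i (∏ k ∈ s, V k ^ m k) = ∏ k ∈ s, D.lam i (V k) ^ m k := by
  classical
  induction s using Finset.induction_on with
  | empty => rw [Finset.prod_empty, Finset.prod_empty, lam_one]
  | insert a s ha ih =>
    rw [Finset.prod_insert ha, Finset.prod_insert ha,
      D.lam_mul i (pow_ne_zero _ (hV a)) (Finset.prod_ne_zero_iff.2 fun k _ => pow_ne_zero _ (hV k)),
      ih, D.lam_pow i (hV a)]

lemma lam_PT (m : Fin n → ℕ) (i : Fin n) :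
    (D.base L).lam i ((D.base L).U ((D.base L).PT m)) = algebraMap K L (Tm D m i) := by
  rw [(D.base L).U_PT, lam_prod _ _ _ _ fun k => X_sub_C_ne_zero _]
  unfold Tm
  rw [map_prod]
  refine Finset.prod_congr rfl fun k _ => ?_
  rw [map_pow]
  congr 1
  split_ifs with h
  · subst h
    rw [(D.base L).lam_X_sub_C_self, map_inv₀]
    congr 1
    unfold ge
    rw [g_eval, map_mul, map_prod]
    simp only [base_δ, base_e, map_sub]
  · rw [(D.base L).lam_X_sub_C_ne (fun h' => h h'.symm), map_sub]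
    simp only [base_e]

lemma Tm_ne (m : Fin n → ℕ) (i : Fin n) : Tm D m i ≠ 0 := by
  unfold Tm
  refine Finset.prod_ne_zero_iff.2 fun k _ => pow_ne_zero _ ?_
  split_ifs with h
  · refine inv_ne_zero (mul_ne_zero D.hδ (Finset.prod_ne_zero_iff.2 fun j hj => ?_))
    rw [sub_ne_zero]
    exact fun h' => (Finset.ne_of_mem_erase hj) (D.he h').symm
  · rw [sub_ne_zero]
    exact fun h' => h (D.he h').symm

lemma pow_PT (m : Fin n → ℕ) : cl ((D.base L).PT m) ^ ℓ = 1 := by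
  rw [cl_PT, ← Finset.prod_pow]
  refine Finset.prod_eq_one fun k _ => ?_
  rw [pow_right_comm, (D.base L).cl_PP_pow, one_pow]

lemma zprod (hℓ : ℓ ≠ 2) (r : ℕ) :
    ∏ j ∈ Finset.range ℓ, (D.base L).ζ ^ (j * r) = 1 := by
  rw [Finset.prod_pow_eq_pow_sum, ← Finset.sum_mul]
  have h1 : Odd ℓ := D.hp.odd_of_ne_two hℓ
  obtain ⟨c, hc⟩ := h1
  have h2 : ∑ i ∈ Finset.range ℓ, i = ℓ * c := by
    have := Finset.sum_range_id_mul_two ℓ
    rw [hc] at this ⊢
    have h3 : 2 * c + 1 - 1 = 2 * c := by omega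
    rw [h3] at this
    nlinarith [this]
  rw [h2, mul_assoc, pow_mul, (D.base L).hζ.pow_eq_one, one_pow]

/-- the exact version of `locA` -/
theorem adjA [IsGalois K L] (hℓ : ℓ ≠ 2) {χ : (L ≃ₐ[K] L) → Fin n → ℕ} {R : ClassGroup (D.base L).A}
    (hR : ∀ τ, D.mC (au τ) R = R * cl ((D.base L).PT (χ τ)))
    {i j : Fin n} {θ : L} (hθ0 : θ ≠ 0)
    (hθ : ∀ τ : L ≃ₐ[K] L, (D.base L).ζ ^ χ τ j * τ θ = (D.base L).ζ ^ χ τ i * θ)
    {B1 : Ideal (D.base L).A} (hB1 : B1 ≠ ⊥)
    (hi1 : ∀ τ : L ≃ₐ[K] L, D.mI (au τ) B1 = B1)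
    (hcl : cl B1 * (D.base L).sC R = R) :
    ∃ x : K, x ≠ 0 ∧
      (algebraMap K L x) ^ ℓ * (D.base L).lam j ((D.base L).U B1) =
      θ ^ ℓ * (D.base L).lam i ((D.base L).U B1) := by
  obtain ⟨I, hI, rfl⟩ := exists_cl R
  rw [(D.base L).sC_cl hI, ← cl_mul hB1 ((D.base L).sI_ne hI)] at hcl
  obtain ⟨b, a, hb, ha, hab⟩ := (cl_eq_iff ((D.base L).mul_ne hB1 ((D.base L).sI_ne hI)) hI).1 hcl
  -- the ratio of leading coefficients
  have key : ∀ τ : L ≃ₐ[K] L, ∃ κ : L, κ ≠ 0 ∧ ∀ k : Fin n,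
      τ ((D.base L).lead k a) * (D.base L).lead k b * (κ * (D.base L).ζ ^ χ τ k) =
        τ ((D.base L).lead k b) * (D.base L).lead k a := by
    intro τ
    have h1 := hR τ
    rw [D.mC_cl _ hI, ← cl_mul hI ((D.base L).PT_ne _)] at h1
    obtain ⟨p, q, hp, hq, hpq⟩ := (cl_eq_iff (D.mI_ne _ hI)
      ((D.base L).mul_ne hI ((D.base L).PT_ne _))).1 h1
    have h2 := congrArg (D.mI (au τ)) hab
    rw [mI_mul, mI_mul, mI_mul, mI_span, mI_span, hi1, mI_sI] at h2
    have h3 := congrArg ((D.base L).sI 1) hpq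
    rw [sI_mul, sI_mul, sI_mul, sI_span, sI_span, sI_PT] at h3
    have hta := D.mp_ne (au τ) ha
    have htb := D.mp_ne (au τ) hb
    have hsp : (D.base L).s 1 p ≠ 0 := (map_ne_zero_iff _ ((D.base L).s 1).injective).2 hp
    have hsq : (D.base L).s 1 q ≠ 0 := (map_ne_zero_iff _ ((D.base L).s 1).injective).2 hq
    -- the key ideal identity
    have h4 : Ideal.span {D.mp (au τ) a * (D.base L).s 1 p * q * b} =
        Ideal.span {D.mp (au τ) b * p * (D.base L).s 1 q * a} := by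
      have hne : (B1 * (D.base L).sI 1 I) * (D.base L).PT (χ τ) ≠ ⊥ :=
        (D.base L).mul_ne ((D.base L).mul_ne hB1 ((D.base L).sI_ne hI)) ((D.base L).PT_ne _)
      apply mul_right_cancel₀ hne
      simp only [← Ideal.span_singleton_mul_span_singleton]
      generalize (D.base L).sI 1 I = sI at *
      generalize D.mI (au τ) I = tI at *
      generalize (D.base L).PT (χ τ) = T at *
      generalize (D.base L).sI 1 tI = stI at *
      generalize Ideal.span {D.mp (au τ) a} = ta at *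
      generalize Ideal.span {D.mp (au τ) b} = tb at *
      generalize Ideal.span {(D.base L).s 1 p} = sp at *
      generalize Ideal.span {(D.base L).s 1 q} = sq at *
      generalize Ideal.span {a} = a' at *
      generalize Ideal.span {b} = b' at *
      generalize Ideal.span {p} = p' at *
      generalize Ideal.span {q} = q' at *
      calc ta * sp * q' * b' * (B1 * sI * T) = ta * sp * q' * (b' * (B1 * sI)) * T := by ring
        _ = ta * sp * q' * (a' * I) * T := by rw [hab]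
        _ = ta * sp * a' * (q' * (I * T)) := by ring
        _ = ta * sp * a' * (p' * tI) := by rw [hpq]
        _ = sp * a' * p' * (ta * tI) := by ring
        _ = sp * a' * p' * (tb * (B1 * stI)) := by rw [h2]
        _ = a' * p' * tb * B1 * (sp * stI) := by ring
        _ = a' * p' * tb * B1 * (sq * (sI * T)) := by rw [h3]
        _ = _ := by ring
    rw [Ideal.span_singleton_eq_span_singleton] at h4
    obtain ⟨u, hu⟩ := h4
    obtain ⟨κ, hκ, huκ⟩ := (D.base L).unit_const u.isUnit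
    rw [huκ] at hu
    have hκA := (D.base L).alg_ne (C_ne_zero.2 hκ)
    refine ⟨κ, hκ, fun k => ?_⟩
    have h5 := congrArg ((D.base L).lead k) hu
    rw [(D.base L).lead_mul k (mul_ne_zero (mul_ne_zero (mul_ne_zero hta hsp) hq) hb) hκA,
      (D.base L).lead_mul k (mul_ne_zero (mul_ne_zero hta hsp) hq) hb,
      (D.base L).lead_mul k (mul_ne_zero hta hsp) hq, (D.base L).lead_mul k hta hsp,
      (D.base L).lead_mul k (mul_ne_zero (mul_ne_zero htb hp) hsq) ha,
      (D.base L).lead_mul k (mul_ne_zero htb hp) hsq, (D.base L).lead_mul k htb hp,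
      (D.base L).lead_C k hκ, (D.base L).lead_s k hp, (D.base L).lead_s k hq,
      D.lead_mp _ k ha, D.lead_mp _ k hb, one_mul, one_mul] at h5
    have e1 : ∀ x : L, (au τ) x = τ x := fun _ => rfl
    rw [e1, e1] at h5
    have h6 : (D.base L).ord k p = (D.base L).ord k q + χ τ k := by
      have h7 := congrArg ((D.base L).oI k) hpq
      rw [(D.base L).oI_mul k ((D.base L).span_ne hp) (D.mI_ne _ hI),
        (D.base L).oI_mul k ((D.base L).span_ne hq) ((D.base L).mul_ne hI ((D.base L).PT_ne _)),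
        (D.base L).oI_mul k hI ((D.base L).PT_ne _), (D.base L).oI_span k hp,
        (D.base L).oI_span k hq, D.oI_mI k _ hI, (D.base L).oI_PT] at h7
      omega
    have h8 : (D.base L).ζ ^ (D.base L).ord k q * (D.base L).lead k p * (D.base L).lead k q ≠ 0 :=
      mul_ne_zero (mul_ne_zero (pow_ne_zero _ (D.base L).ζ_ne) ((D.base L).lead_ne hp))
        ((D.base L).lead_ne hq)
    apply mul_left_cancel₀ h8
    rw [h6, pow_add] at h5
    linear_combination h5
  -- the element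
  set z : L := θ * ((D.base L).lead i a * (D.base L).lead j b) /
    ((D.base L).lead j a * (D.base L).lead i b) with hz
  have hai := (D.base L).lead_ne (i := i) ha
  have haj := (D.base L).lead_ne (i := j) ha
  have hbi := (D.base L).lead_ne (i := i) hb
  have hbj := (D.base L).lead_ne (i := j) hb
  have hz0 : z ≠ 0 := div_ne_zero (mul_ne_zero hθ0 (mul_ne_zero hai hbj)) (mul_ne_zero haj hbi)
  have hzfix : ∀ τ : L ≃ₐ[K] L, τ z = z := by
    intro τ
    obtain ⟨κ, hκ, hk⟩ := key τ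
    have hi := hk i
    have hj := hk j
    have hθ' := hθ τ
    have hζi : (D.base L).ζ ^ χ τ i ≠ 0 := pow_ne_zero _ (D.base L).ζ_ne
    have hζj : (D.base L).ζ ^ χ τ j ≠ 0 := pow_ne_zero _ (D.base L).ζ_ne
    have tai : τ ((D.base L).lead i a) ≠ 0 := (_root_.map_ne_zero _).2 hai
    have taj : τ ((D.base L).lead j a) ≠ 0 := (_root_.map_ne_zero _).2 haj
    have tbi : τ ((D.base L).lead i b) ≠ 0 := (_root_.map_ne_zero _).2 hbi
    have tbj : τ ((D.base L).lead j b) ≠ 0 := (_root_.map_ne_zero _).2 hbj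
    rw [hz, map_div₀, map_mul, map_mul, map_mul, div_eq_div_iff (mul_ne_zero taj tbi)
      (mul_ne_zero haj hbi)]
    generalize τ ((D.base L).lead i a) = Ai at *
    generalize τ ((D.base L).lead j a) = Aj at *
    generalize τ ((D.base L).lead i b) = Bi at *
    generalize τ ((D.base L).lead j b) = Bj at *
    generalize (D.base L).lead i a = ai at *
    generalize (D.base L).lead j a = aj at *
    generalize (D.base L).lead i b = bi at *
    generalize (D.base L).lead j b = bj at *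
    generalize (D.base L).ζ ^ χ τ i = zi at *
    generalize (D.base L).ζ ^ χ τ j = zj at *
    generalize τ θ = t at *
    have hne : κ * zi * zj ≠ 0 := mul_ne_zero (mul_ne_zero hκ hζi) hζj
    apply mul_left_cancel₀ hne
    calc κ * zi * zj * (t * (Ai * Bj) * (aj * bi)) =
        (Ai * bi * (κ * zi)) * (zj * t) * (Bj * aj) := by ring
      _ = (Bi * ai) * (zi * θ) * (Aj * bj * (κ * zj)) := by rw [hi, hθ', ← hj]
      _ = _ := by ring
  obtain ⟨x, hx⟩ := exists_F (F := K) hzfix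
  have hx0 : x ≠ 0 := by
    rintro rfl
    rw [map_zero] at hx
    exact hz0 hx.symm
  -- norms
  have hU : ∀ k : Fin n,
      (D.base L).lead k b ^ ℓ * ((D.base L).Nm b).leadingCoeff⁻¹ *
        (D.base L).lam k ((D.base L).U B1) =
      (D.base L).lead k a ^ ℓ * ((D.base L).Nm a).leadingCoeff⁻¹ := by
    intro k
    have h1 := congrArg (D.base L).U hab
    rw [(D.base L).U_mul ((D.base L).span_ne hb) ((D.base L).mul_ne hB1 ((D.base L).sI_ne hI)),
      (D.base L).U_mul hB1 ((D.base L).sI_ne hI), (D.base L).U_mul ((D.base L).span_ne ha) hI,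
      (D.base L).U_sI 1 hI, ← mul_assoc] at h1
    have h2 := mul_right_cancel₀ ((D.base L).U_ne I) h1
    rw [(D.base L).U_span hb, (D.base L).U_span ha] at h2
    have hNa := (D.base L).Nm_ne ha
    have hNb := (D.base L).Nm_ne hb
    have hca : ((D.base L).Nm a).leadingCoeff⁻¹ ≠ 0 := inv_ne_zero (leadingCoeff_ne_zero.2 hNa)
    have hcb : ((D.base L).Nm b).leadingCoeff⁻¹ ≠ 0 := inv_ne_zero (leadingCoeff_ne_zero.2 hNb)
    have h3 := congrArg ((D.base L).lam k) h2
    rw [(D.base L).lam_mul k (mul_ne_zero hNb (C_ne_zero.2 hcb)) ((D.base L).U_ne B1),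
      (D.base L).lam_mul k hNb (C_ne_zero.2 hcb), (D.base L).lam_mul k hNa (C_ne_zero.2 hca),
      (D.base L).lam_C k hca, (D.base L).lam_C k hcb, (D.base L).lead_Nm k ha,
      (D.base L).lead_Nm k hb, zprod D hℓ, zprod D hℓ, one_mul, one_mul] at h3
    exact h3
  have hri := hU i
  have hrj := hU j
  refine ⟨x, hx0, ?_⟩
  have hNa := (D.base L).Nm_ne ha
  have hNb := (D.base L).Nm_ne hb
  have hca : ((D.base L).Nm a).leadingCoeff⁻¹ ≠ 0 := inv_ne_zero (leadingCoeff_ne_zero.2 hNa)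
  have hcb : ((D.base L).Nm b).leadingCoeff⁻¹ ≠ 0 := inv_ne_zero (leadingCoeff_ne_zero.2 hNb)
  rw [hx, hz, div_pow, div_mul_eq_mul_div,
    div_eq_iff (pow_ne_zero _ (mul_ne_zero haj hbi)), mul_pow, mul_pow, mul_pow]
  generalize ((D.base L).Nm a).leadingCoeff⁻¹ = ca at *
  generalize ((D.base L).Nm b).leadingCoeff⁻¹ = cb at *
  generalize (D.base L).lam i ((D.base L).U B1) = Ti at *
  generalize (D.base L).lam j ((D.base L).U B1) = Tj at *
  generalize (D.base L).lead i a ^ ℓ = ai at *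
  generalize (D.base L).lead j a ^ ℓ = aj at *
  generalize (D.base L).lead i b ^ ℓ = bi at *
  generalize (D.base L).lead j b ^ ℓ = bj at *
  generalize θ ^ ℓ = t at *
  apply mul_left_cancel₀ (mul_ne_zero hca hcb)
  calc ca * cb * (t * (ai * bj) * Tj) = t * (ai * ca) * (bj * cb * Tj) := by ring
    _ = t * (bi * cb * Ti) * (aj * ca) := by rw [hri, hrj]
    _ = _ := by ring

end

/-- SZ-ADJ -/
theorem t : S_ADJ := by
  intro ℓ n K _ D L _ _ _ hℓ m χ χ' kd kd' Q hQ hχ i j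
  have hℓ1 : ℓ - 1 + 1 = ℓ := Nat.sub_add_cancel D.hp.one_lt.le
  -- the class relation
  have hR : ∀ τ : L ≃ₐ[K] L, D.mC (au τ) Q =
      Q * cl ((D.base L).PT (χ τ + (ℓ - 1) • χ' τ)) := by
    intro τ
    have h1 := hχ τ
    have h2 : cl ((D.base L).PT (χ τ + (ℓ - 1) • χ' τ)) =
        cl ((D.base L).PT (χ τ)) * cl ((D.base L).PT (χ' τ)) ^ (ℓ - 1) := by
      rw [cl_PT, cl_PT, cl_PT, ← Finset.prod_pow, ← Finset.prod_mul_distrib]
      refine Finset.prod_congr rfl fun k _ => ?_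
      rw [Pi.add_apply, Pi.smul_apply, smul_eq_mul, pow_add, mul_comm (ℓ - 1), pow_mul]
    have h3 : cl ((D.base L).PT (χ' τ)) ^ (ℓ - 1) * cl ((D.base L).PT (χ' τ)) = 1 := by
      rw [← pow_succ, hℓ1]
      exact pow_PT D (χ' τ)
    have h4 : cl ((D.base L).PT (χ' τ)) ^ (ℓ - 1) = (cl ((D.base L).PT (χ' τ)))⁻¹ :=
      eq_inv_of_mul_eq_one_left h3
    rw [h2, h4, h1, inv_div]
    rw [← mul_assoc, mul_comm Q, mul_assoc, mul_div_assoc', mul_div_assoc']
    rw [eq_div_iff_mul_eq']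
    rw [mul_comm Q, div_mul_cancel, mul_comm]
  have hθ0 : kd.θ i j * kd'.θ i j ^ (ℓ - 1) ≠ 0 :=
    mul_ne_zero (kd.h0 i j) (pow_ne_zero _ (kd'.h0 i j))
  have hθ : ∀ τ : L ≃ₐ[K] L, (D.base L).ζ ^ (χ τ + (ℓ - 1) • χ' τ) j *
      τ (kd.θ i j * kd'.θ i j ^ (ℓ - 1)) =
      (D.base L).ζ ^ (χ τ + (ℓ - 1) • χ' τ) i * (kd.θ i j * kd'.θ i j ^ (ℓ - 1)) := by
    intro τ
    have h1 := kd.hθ τ i j
    have h2 := kd'.hθ τ i j
    have e : ∀ k, (D.base L).ζ ^ (χ τ + (ℓ - 1) • χ' τ) k =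
        (D.base L).ζ ^ χ τ k * ((D.base L).ζ ^ χ' τ k) ^ (ℓ - 1) := fun k => by
      rw [Pi.add_apply, Pi.smul_apply, smul_eq_mul, pow_add, mul_comm (ℓ - 1), pow_mul]
    rw [e, e, map_mul, map_pow]
    calc (D.base L).ζ ^ χ τ j * ((D.base L).ζ ^ χ' τ j) ^ (ℓ - 1) *
          (τ (kd.θ i j) * τ (kd'.θ i j) ^ (ℓ - 1)) =
        ((D.base L).ζ ^ χ τ j * τ (kd.θ i j)) *
          ((D.base L).ζ ^ χ' τ j * τ (kd'.θ i j)) ^ (ℓ - 1) := by rw [mul_pow]; ring
      _ = ((D.base L).ζ ^ χ τ i * kd.θ i j) *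
          ((D.base L).ζ ^ χ' τ i * kd'.θ i j) ^ (ℓ - 1) := by rw [h1, h2]
      _ = _ := by rw [mul_pow]; ring
  obtain ⟨x, hx0, hx⟩ := adjA D hℓ (χ := fun τ => χ τ + (ℓ - 1) • χ' τ) hR hθ0 hθ
    ((D.base L).PT_ne m) (fun τ => D.mI_PT (au τ) m) hQ
  rw [lam_PT, lam_PT, mul_pow (kd.θ i j), kd.hd, pow_right_comm, kd'.hd] at hx
  have hx' : x ^ ℓ * Tm D m j = kd.d i j * kd'.d i j ^ (ℓ - 1) * Tm D m i := by
    apply (algebraMap K L).injective
    simp only [map_mul, map_pow]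
    exact hx
  have hd0 : kd'.d i j ≠ 0 := by
    intro h
    have h1 := kd'.hd i j
    rw [h, map_zero] at h1
    exact kd'.h0 i j (pow_eq_zero_iff D.hp.ne_zero |>.1 h1)
  refine ⟨kd'.d i j / x, div_ne_zero hd0 hx0, ?_⟩
  rw [div_pow, div_mul_eq_mul_div, eq_div_iff (pow_ne_zero _ hx0)]
  calc kd'.d i j * Tm D m j * x ^ ℓ = kd'.d i j * (x ^ ℓ * Tm D m j) := by ring
    _ = (kd'.d i j ^ (ℓ - 1) * kd'.d i j) * (kd.d i j * Tm D m i) := by rw [hx']; ring
    _ = _ := by rw [← pow_succ, hℓ1]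

end Pool.Agent.Y98.SZ.Adj
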